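import Mathlib

/-!
# MP_066924_al: the local derivations of a finite-dimensional algebra form a Lie algebra

For a finite-dimensional (not necessarily associative, commutative or unital) algebra over `ℝ` or
`ℂ`, the local derivations form a Lie subalgebra of the algebra of all linear maps.
-/

set_option autoImplicit false

namespace Pool.Agent.Results.MP_066924_al.LieAlgebra

open NormedSpace Filter Topology

/-- `D` is a derivation of the algebra `A` with the product `mul`. -/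
def IsDerivation {𝕜 A : Type*} [Field 𝕜] [AddCommGroup A] [Module 𝕜 A] (mul : A →ₗ[𝕜] A →ₗ[𝕜] A)
    (D : Module.End 𝕜 A) : Prop :=
  ∀ x y : A, D (mul x y) = mul (D x) y + mul x (D y)

/-- `Δ` is a local derivation of the algebra `A` with the product `mul`. -/
def IsLocalDerivation {𝕜 A : Type*} [Field 𝕜] [AddCommGroup A] [Module 𝕜 A]
    (mul : A →ₗ[𝕜] A →ₗ[𝕜] A) (Δ : Module.End 𝕜 A) : Prop :=
  ∀ x : A, ∃ D : Module.End 𝕜 A, IsDerivation mul D ∧ Δ x = D x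

section general

variable {𝕜 : Type*} [RCLike 𝕜] {𝔸 : Type*} [NormedRing 𝔸] [NormedAlgebra 𝕜 𝔸] [CompleteSpace 𝔸]

/-- left multiplication as a ring homomorphism -/
noncomputable def lhom (𝕜 : Type*) [RCLike 𝕜] (𝔸 : Type*) [NormedRing 𝔸] [NormedAlgebra 𝕜 𝔸] :
    𝔸 →+* (𝔸 →L[𝕜] 𝔸) where
  toFun a := ContinuousLinearMap.mul 𝕜 𝔸 a
  map_one' := by ext; simp
  map_mul' a b := by ext; simp [mul_assoc]
  map_zero' := by simp
  map_add' a b := by simp

/-- right multiplication as a ring homomorphism -/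
noncomputable def rhom (𝕜 : Type*) [RCLike 𝕜] (𝔸 : Type*) [NormedRing 𝔸] [NormedAlgebra 𝕜 𝔸] :
    𝔸ᵐᵒᵖ →+* (𝔸 →L[𝕜] 𝔸) where
  toFun a := (ContinuousLinearMap.mul 𝕜 𝔸).flip a.unop
  map_one' := by ext; simp
  map_mul' a b := by ext; simp [mul_assoc]
  map_zero' := by simp
  map_add' a b := by simp

theorem exp_left (a X : 𝔸) : exp (ContinuousLinearMap.mul 𝕜 𝔸 a) X = exp a * X := by
  letI : NormedAlgebra ℚ 𝔸 := NormedAlgebra.restrictScalars ℚ 𝕜 𝔸
  letI : NormedAlgebra ℚ (𝔸 →L[𝕜] 𝔸) := NormedAlgebra.restrictScalars ℚ 𝕜 _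
  have h := map_exp (lhom 𝕜 𝔸) (ContinuousLinearMap.mul 𝕜 𝔸).continuous a
  have h2 : lhom 𝕜 𝔸 a = ContinuousLinearMap.mul 𝕜 𝔸 a := rfl
  rw [h2] at h
  rw [← h]
  rfl

theorem exp_right (a X : 𝔸) : exp ((ContinuousLinearMap.mul 𝕜 𝔸).flip a) X = X * exp a := by
  letI : NormedAlgebra ℚ 𝔸 := NormedAlgebra.restrictScalars ℚ 𝕜 𝔸
  letI : NormedAlgebra ℚ 𝔸ᵐᵒᵖ := NormedAlgebra.restrictScalars ℚ 𝕜 _
  letI : NormedAlgebra ℚ (𝔸 →L[𝕜] 𝔸) := NormedAlgebra.restrictScalars ℚ 𝕜 _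
  have h := map_exp (rhom 𝕜 𝔸)
    ((ContinuousLinearMap.mul 𝕜 𝔸).flip.continuous.comp MulOpposite.continuous_unop)
    (MulOpposite.op a)
  have h2 : rhom 𝕜 𝔸 (MulOpposite.op a) = (ContinuousLinearMap.mul 𝕜 𝔸).flip a := rfl
  rw [h2, exp_op] at h
  rw [← h]
  rfl

/-- the exponential of a continuous linear map preserves a closed invariant subspace -/
theorem exp_mem (W : Submodule 𝕜 𝔸) (hW : IsClosed (W : Set 𝔸)) (B : 𝔸 →L[𝕜] 𝔸)
    (hB : ∀ X ∈ W, B X ∈ W) (X : 𝔸) (hX : X ∈ W) : exp B X ∈ W := by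
  have hpow : ∀ n : ℕ, (B ^ n) X ∈ W := by
    intro n
    induction n with
    | zero => simpa using hX
    | succ n ih =>
      rw [pow_succ']
      exact hB _ ih
  have hs := exp_series_hasSum_exp' (𝕂 := 𝕜) B
  have hs2 := hs.mapL (ContinuousLinearMap.apply 𝕜 𝔸 X)
  have hs3 : HasSum (fun n : ℕ => ((n.factorial : 𝕜)⁻¹) • (B ^ n) X) (exp B X) := by
    simpa using hs2
  refine hW.mem_of_tendsto hs3 (Filter.Eventually.of_forall fun s => ?_)
  exact W.sum_mem fun n _ => W.smul_mem _ (hpow n)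

/-- conjugation by the exponential preserves a closed subspace invariant under the bracket -/
theorem conj_mem (W : Submodule 𝕜 𝔸) (hW : IsClosed (W : Set 𝔸)) (d : 𝔸)
    (hd : ∀ X ∈ W, X * d - d * X ∈ W) (X : 𝔸) (hX : X ∈ W) : exp (-d) * X * exp d ∈ W := by
  letI : NormedAlgebra ℚ (𝔸 →L[𝕜] 𝔸) := NormedAlgebra.restrictScalars ℚ 𝕜 _
  have hcomm : Commute (ContinuousLinearMap.mul 𝕜 𝔸 (-d)) ((ContinuousLinearMap.mul 𝕜 𝔸).flip d) := by
    ext Y
    simp [mul_assoc]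
  have h := exp_mem W hW (ContinuousLinearMap.mul 𝕜 𝔸 (-d) + (ContinuousLinearMap.mul 𝕜 𝔸).flip d)
    (by
      intro Y hY
      have : (ContinuousLinearMap.mul 𝕜 𝔸 (-d) + (ContinuousLinearMap.mul 𝕜 𝔸).flip d) Y =
          Y * d - d * Y := by
        simp; abel
      rw [this]
      exact hd Y hY) X hX
  rw [exp_add_of_commute hcomm] at h
  have h2 : (exp (ContinuousLinearMap.mul 𝕜 𝔸 (-d)) * exp ((ContinuousLinearMap.mul 𝕜 𝔸).flip d)) X
      = exp (-d) * X * exp d := by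
    change exp (ContinuousLinearMap.mul 𝕜 𝔸 (-d)) (exp ((ContinuousLinearMap.mul 𝕜 𝔸).flip d) X) = _
    rw [exp_left, exp_right, mul_assoc]
  rwa [h2] at h

end general

section space

variable {𝕜 : Type*} [RCLike 𝕜] {E : Type*} [NormedAddCommGroup E] [NormedSpace 𝕜 E]
  [FiniteDimensional 𝕜 E]

/-- the bracket of a map which is locally in `W` with an element of `W` is locally in `W` -/
theorem bracket_mem (W : Submodule 𝕜 (E →L[𝕜] E)) (hW : ∀ X ∈ W, ∀ Y ∈ W, X * Y - Y * X ∈ W)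
    (T : E →L[𝕜] E) (hT : ∀ x, ∃ d ∈ W, T x = d x) (d : E →L[𝕜] E) (hd : d ∈ W) (x : E) :
    ∃ d' ∈ W, T (d x) - d (T x) = d' x := by
  have : CompleteSpace E := FiniteDimensional.complete 𝕜 E
  have : FiniteDimensional 𝕜 (E →L[𝕜] E) := inferInstance
  letI : NormedAlgebra ℚ (E →L[𝕜] E) := NormedAlgebra.restrictScalars ℚ 𝕜 _
  have hWc : IsClosed (W : Set (E →L[𝕜] E)) := W.closed_of_finiteDimensional
  -- the orbit space of `x`
  let O : Submodule 𝕜 E := W.map ((ContinuousLinearMap.apply 𝕜 E x : (E →L[𝕜] E) →L[𝕜] E) :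
    (E →L[𝕜] E) →ₗ[𝕜] E)
  have hOc : IsClosed (O : Set E) := O.closed_of_finiteDimensional
  have hO : ∀ z, z ∈ O ↔ ∃ d' ∈ W, z = d' x := by
    intro z
    simp only [O, Submodule.mem_map]
    constructor
    · rintro ⟨d', hd', h⟩
      exact ⟨d', hd', h.symm⟩
    · rintro ⟨d', hd', h⟩
      exact ⟨d', hd', h.symm⟩
  rw [← hO]
  -- the curve
  have hcurve : ∀ t : 𝕜, exp (t • (-d)) (T (exp (t • d) x)) ∈ O := by
    intro t
    obtain ⟨D, hD, hDx⟩ := hT (exp (t • d) x)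
    rw [hDx, hO]
    refine ⟨exp (-(t • d)) * D * exp (t • d), ?_, ?_⟩
    · refine conj_mem W hWc (t • d) (fun X hX => ?_) D hD
      exact hW X hX _ (W.smul_mem t hd)
    · rw [smul_neg]; rfl
  have hderiv : HasDerivAt (fun t : 𝕜 => exp (t • (-d)) (T (exp (t • d) x)))
      (T (d x) - d (T x)) 0 := by
    have h1 := hasDerivAt_exp_smul_const (𝕂 := 𝕜) (-d) (0 : 𝕜)
    have h2 := hasDerivAt_exp_smul_const (𝕂 := 𝕜) d (0 : 𝕜)
    have h3 := h2.clm_apply (hasDerivAt_const (0 : 𝕜) x)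
    have h4 := T.hasFDerivAt.comp_hasDerivAt (0 : 𝕜) h3
    have h5 := h1.clm_apply h4
    simp only [zero_smul, exp_zero, one_mul, map_zero, add_zero] at h5
    have h6 : (-d) ((⇑T ∘ fun y : 𝕜 => (exp (y • d)) x) 0) + (1 : E →L[𝕜] E) (T (d x)) =
        T (d x) - d (T x) := by
      change -(d (T (exp ((0 : 𝕜) • d) x))) + T (d x) = T (d x) - d (T x)
      rw [zero_smul, exp_zero]
      change -(d (T x)) + T (d x) = T (d x) - d (T x)
      abel
    rw [h6] at h5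
    exact h5
  have hslope := hderiv.tendsto_slope
  refine hOc.mem_of_tendsto hslope ?_
  filter_upwards with t
  rw [slope_def_module]
  exact O.smul_mem _ (O.sub_mem (hcurve t) (hcurve 0))

theorem bracket_local (W : Submodule 𝕜 (E →L[𝕜] E)) (hW : ∀ X ∈ W, ∀ Y ∈ W, X * Y - Y * X ∈ W)
    (T₁ T₂ : E →L[𝕜] E) (h₁ : ∀ x, ∃ d ∈ W, T₁ x = d x) (h₂ : ∀ x, ∃ d ∈ W, T₂ x = d x) (x : E) :
    ∃ d' ∈ W, T₁ (T₂ x) - T₂ (T₁ x) = d' x := by
  obtain ⟨d₁, hd₁, e₁⟩ := h₁ x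
  obtain ⟨d₂, hd₂, e₂⟩ := h₂ x
  obtain ⟨a, ha, ea⟩ := bracket_mem W hW T₁ h₁ d₂ hd₂ x
  obtain ⟨b, hb, eb⟩ := bracket_mem W hW T₂ h₂ d₁ hd₁ x
  refine ⟨a - b + (d₂ * d₁ - d₁ * d₂), W.add_mem (W.sub_mem ha hb) (hW _ hd₂ _ hd₁), ?_⟩
  have : (a - b + (d₂ * d₁ - d₁ * d₂)) x = a x - b x + (d₂ (d₁ x) - d₁ (d₂ x)) := rfl
  rw [this, ← ea, ← eb, e₁, e₂]
  abel

end space

/-- **Q1, answered affirmatively.** For every finite-dimensional algebra over `ℝ` or `ℂ` the local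
derivations form a linear subspace of the space of all linear endomorphisms which is closed under
the commutator, i.e. a Lie algebra. -/
theorem result (𝕜 : Type) [RCLike 𝕜] (A : Type*) [AddCommGroup A] [Module 𝕜 A]
    [FiniteDimensional 𝕜 A] (mul : A →ₗ[𝕜] A →ₗ[𝕜] A) :
    ∃ L : Submodule 𝕜 (Module.End 𝕜 A),
      (∀ Δ : Module.End 𝕜 A, Δ ∈ L ↔ IsLocalDerivation mul Δ) ∧
      ∀ Δ₁ ∈ L, ∀ Δ₂ ∈ L, Δ₁ * Δ₂ - Δ₂ * Δ₁ ∈ L := by
  -- the space of derivations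
  let D : Submodule 𝕜 (Module.End 𝕜 A) :=
    { carrier := {D | IsDerivation mul D}
      add_mem' := by
        intro X Y hX hY x y
        simp only [LinearMap.add_apply, map_add]
        rw [hX x y, hY x y]
        abel
      zero_mem' := by
        intro x y
        simp
      smul_mem' := by
        intro c X hX x y
        simp only [LinearMap.smul_apply, map_smul]
        rw [hX x y, smul_add] }
  have hDmem : ∀ X, X ∈ D ↔ IsDerivation mul X := fun X => Iff.rfl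
  have hDbr : ∀ X ∈ D, ∀ Y ∈ D, X * Y - Y * X ∈ D := by
    intro X hX Y hY x y
    rw [hDmem] at hX hY
    simp only [LinearMap.sub_apply, Module.End.mul_apply]
    rw [hX x y, hY x y, map_add, map_add, hX, hX, hY, hY]
    simp only [map_sub, LinearMap.sub_apply]
    abel
  -- a norm on `A`
  let φ : A ≃ₗ[𝕜] EuclideanSpace 𝕜 (Fin (Module.finrank 𝕜 A)) :=
    LinearEquiv.ofFinrankEq _ _ (by simp)
  letI : NormedAddCommGroup A :=
    NormedAddCommGroup.induced A (EuclideanSpace 𝕜 (Fin (Module.finrank 𝕜 A))) φ.toLinearMap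
      φ.injective
  letI : NormedSpace 𝕜 A :=
    NormedSpace.induced 𝕜 A (EuclideanSpace 𝕜 (Fin (Module.finrank 𝕜 A))) φ.toLinearMap
  let c : (A →ₗ[𝕜] A) ≃ₗ[𝕜] (A →L[𝕜] A) := LinearMap.toContinuousLinearMap
  let W : Submodule 𝕜 (A →L[𝕜] A) := D.map c.toLinearMap
  have hWmem : ∀ X : A →L[𝕜] A, X ∈ W ↔ (X : A →ₗ[𝕜] A) ∈ D := by
    intro X
    simp only [W, Submodule.mem_map]
    constructor
    · rintro ⟨Y, hY, rfl⟩
      exact hY
    · intro h
      exact ⟨_, h, by ext; rfl⟩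
  have hW : ∀ X ∈ W, ∀ Y ∈ W, X * Y - Y * X ∈ W := by
    intro X hX Y hY
    rw [hWmem] at hX hY ⊢
    exact hDbr _ hX _ hY
  have hloc : ∀ Δ : Module.End 𝕜 A, IsLocalDerivation mul Δ → ∀ x, ∃ d ∈ W, c Δ x = d x := by
    intro Δ hΔ x
    obtain ⟨d, hd, e⟩ := hΔ x
    exact ⟨c d, ⟨d, hd, rfl⟩, e⟩
  refine ⟨{ carrier := {Δ | IsLocalDerivation mul Δ}
            add_mem' := ?_
            zero_mem' := ?_
            smul_mem' := ?_ }, fun Δ => Iff.rfl, ?_⟩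
  · intro X Y hX hY x
    obtain ⟨a, ha, ea⟩ := hX x
    obtain ⟨b, hb, eb⟩ := hY x
    exact ⟨a + b, D.add_mem ha hb, by rw [LinearMap.add_apply, LinearMap.add_apply, ea, eb]⟩
  · intro x
    exact ⟨0, D.zero_mem, rfl⟩
  · intro r X hX x
    obtain ⟨a, ha, ea⟩ := hX x
    exact ⟨r • a, D.smul_mem r ha, by rw [LinearMap.smul_apply, LinearMap.smul_apply, ea]⟩
  · intro X hX Y hY x
    obtain ⟨d, hd, e⟩ := bracket_local W hW (c X) (c Y) (hloc X hX) (hloc Y hY) x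
    rw [hWmem] at hd
    exact ⟨(d : A →ₗ[𝕜] A), hd, e⟩

end Pool.Agent.Results.MP_066924_al.LieAlgebra
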